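import Pool.Agent.Helper6.AK.DGoals
import Pool.Agent.Helper6.W.Diam

/-!
# Packet AKD-CONJ: short words for all conjugates of a permutation of small support
-/

set_option autoImplicit false

namespace Pool.Agent.Helper85.AK

open Equiv Pool.Agent.Helper15.An Pool.Agent.Helper6.FixK Pool.Agent.Helper6.T5
  Pool.Agent.Helper6.W

/-- Conjugation only depends on the values on the support. -/
theorem conj_eq {n : ℕ} (c h σ : Perm (Fin n)) (hs : ∀ v ∈ c.support, h v = σ v) :
    h * c * h⁻¹ = σ * c * σ⁻¹ := by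
  -- `g = σ⁻¹ h` fixes the support pointwise, so it commutes with `c`
  have h1 : ∀ v ∈ c.support, (σ⁻¹ * h) v = v := by
    intro v hv
    rw [Perm.mul_apply, hs v hv, Perm.inv_eq_iff_eq]
  have h2 : Perm.Disjoint (σ⁻¹ * h) c := by
    intro v
    by_cases hv : v ∈ c.support
    · exact Or.inl (h1 v hv)
    · exact Or.inr (Perm.notMem_support.1 hv)
  have h3 : (σ⁻¹ * h) * c = c * (σ⁻¹ * h) := h2.commute.eq
  have h4 : h * c = σ * c * σ⁻¹ * h := by
    calc h * c = σ * ((σ⁻¹ * h) * c) := by group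
      _ = σ * (c * (σ⁻¹ * h)) := by rw [h3]
      _ = σ * c * σ⁻¹ * h := by group
  rw [h4]
  group

theorem thm : Pool.Agent.Helper6.AK.S_CONJ := by
  intro n k hk x s t ℓ ε hε hgap ht c hc hℓ σ
  let e : Fin s ≃ c.support := (Finset.equivFinOfCardEq hc).symm
  let a : Fin s ↪ Fin n := e.toEmbedding.trans (Function.Embedding.subtype _)
  let b : Fin s ↪ Fin n := a.trans σ.toEmbedding
  obtain ⟨h, hab, hh⟩ := reach_tuple3 hk x hε hgap ht a b
  have hs : ∀ v ∈ c.support, h v = σ v := by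
    intro v hv
    have h1 := hab (e.symm ⟨v, hv⟩)
    have h2 : a (e.symm ⟨v, hv⟩) = v := by
      show ((e (e.symm ⟨v, hv⟩) : c.support) : Fin n) = v
      rw [e.apply_symm_apply]
    have h3 : b (e.symm ⟨v, hv⟩) = σ (a (e.symm ⟨v, hv⟩)) := rfl
    rw [h3, h2] at h1
    exact h1
  have h1 := (hh.mul hℓ).mul hh.inv
  rw [conj_eq c h σ hs] at h1
  have h2 : 2 * t + ℓ + 2 * t = ℓ + 4 * t := by ring
  rwa [h2] at h1

end Pool.Agent.Helper85.AK
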